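import Pool.Agent.WR2.StmtsC

/-!
WR2, row ONE: the densities `W r` are almost invariant under the transfer operator.
-/

namespace Pool.Agent.WR2.H47

open Pool.Agent.WIR Pool.Agent.WR2
open scoped BigOperators ENNReal

lemma av_mono {N : ℕ} {f g : ℕ → ℝ} (h : ∀ m, 0 < m → f m ≤ g m) : av N f ≤ av N g := by
  unfold av
  apply div_le_div_of_nonneg_right _ (by positivity)
  exact Finset.sum_le_sum (fun m hm => h m (Finset.mem_Icc.1 hm).1)

lemma av_add {N : ℕ} {f g : ℕ → ℝ} : av N (fun m => f m + g m) = av N f + av N g := by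
  unfold av
  rw [Finset.sum_add_distrib, add_div]

lemma av_mul {N : ℕ} {c : ℝ} {f : ℕ → ℝ} : av N (fun m => c * f m) = c * av N f := by
  unfold av
  rw [← Finset.mul_sum, mul_div_assoc]

lemma lv_add {N : ℕ} {f g : ℕ → ℝ} (hf : Lv N f) (hg : Lv N g) :
    Lv N (fun m => f m + g m) := by
  intro m hm
  simp only []
  rw [hf m hm, hg m hm]

lemma exp_bd (A N : ℕ) :
    Real.exp (-((N : ℝ) / 6)) ≤ 3 * 6 ^ A * (A.factorial : ℝ) / ((N : ℝ) + 2) ^ A := by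
  have h1 : (((N : ℝ) + 2) / 6) ^ A / (A.factorial : ℝ) ≤ Real.exp (((N : ℝ) + 2) / 6) :=
    Real.pow_div_factorial_le_exp _ (by positivity) A
  have hfac : (0 : ℝ) < (A.factorial : ℝ) := by exact_mod_cast A.factorial_pos
  have h2 : ((N : ℝ) + 2) ^ A ≤ 6 ^ A * (A.factorial : ℝ) * Real.exp (((N : ℝ) + 2) / 6) := by
    rw [div_pow, div_div, div_le_iff₀ (by positivity)] at h1
    linarith
  have h3 : Real.exp (-((N : ℝ) / 6)) * Real.exp (((N : ℝ) + 2) / 6) = Real.exp (1 / 3) := by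
    rw [← Real.exp_add]
    congr 1
    ring
  have h4 : Real.exp (1 / 3 : ℝ) ≤ 3 := by
    have : Real.exp (1 / 3 : ℝ) ≤ Real.exp 1 := Real.exp_le_exp.2 (by norm_num)
    have h5 := Real.exp_one_lt_d9
    linarith
  rw [le_div_iff₀ (by positivity)]
  calc Real.exp (-((N : ℝ) / 6)) * ((N : ℝ) + 2) ^ A
      ≤ Real.exp (-((N : ℝ) / 6)) * (6 ^ A * (A.factorial : ℝ) * Real.exp (((N : ℝ) + 2) / 6)) :=
        mul_le_mul_of_nonneg_left h2 (Real.exp_nonneg _)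
    _ = 6 ^ A * (A.factorial : ℝ) *
        (Real.exp (-((N : ℝ) / 6)) * Real.exp (((N : ℝ) + 2) / 6)) := by ring
    _ = 6 ^ A * (A.factorial : ℝ) * Real.exp (1 / 3) := by rw [h3]
    _ ≤ 6 ^ A * (A.factorial : ℝ) * 3 := mul_le_mul_of_nonneg_left h4 (by positivity)
    _ = 3 * 6 ^ A * (A.factorial : ℝ) := by ring

/-- the extension error: `3^N/2^M' (cnt M' - 2^(M'-M) cnt M)`. -/
noncomputable def dx (N M M' m : ℕ) : ℝ :=
  3 ^ N / 2 ^ M' * ((cnt M' (Set.Ici N) N ((m : ℕ) : ZMod (3 ^ N)) : ℝ)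
    - 2 ^ (M' - M) * (cnt M (Set.Ici N) N ((m : ℕ) : ZMod (3 ^ N)) : ℝ))

lemma dx_nonneg (hWex : WexStmt) {N M M' : ℕ} (h1 : 3 * N ≤ M) (h2 : M ≤ M') (m : ℕ) :
    0 ≤ dx N M M' m := by
  unfold dx
  apply mul_nonneg (by positivity)
  have h := (hWex N M M' h1 h2).1 ((m : ℕ) : ZMod (3 ^ N))
  have h' : (2 : ℝ) ^ (M' - M) * (cnt M (Set.Ici N) N ((m : ℕ) : ZMod (3 ^ N)) : ℝ)
      ≤ (cnt M' (Set.Ici N) N ((m : ℕ) : ZMod (3 ^ N)) : ℝ) := by exact_mod_cast h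
  linarith

lemma dx_lv (hAva : AvaStmt) (hWex : WexStmt) {N M M' : ℕ} (h1 : 3 * N ≤ M) (h2 : M ≤ M') :
    Lv N (dx N M M') ∧ av N (dx N M M') ≤ Real.exp (-((N : ℝ) / 6)) := by
  have hA := hAva.2.1 N (fun z => 3 ^ N / 2 ^ M' * ((cnt M' (Set.Ici N) N z : ℝ)
    - 2 ^ (M' - M) * (cnt M (Set.Ici N) N z : ℝ)))
  refine ⟨hA.1, ?_⟩
  have h3 : av N (dx N M M') = (∑ z : ZMod (3 ^ N), (3 ^ N / 2 ^ M' *
      ((cnt M' (Set.Ici N) N z : ℝ) - 2 ^ (M' - M) * (cnt M (Set.Ici N) N z : ℝ)))) / 3 ^ N :=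
    hA.2
  rw [h3, ← Finset.mul_sum, Finset.sum_sub_distrib, ← Finset.mul_sum]
  have h4 := (hWex N M M' h1 h2).2
  have h5 : (3 : ℝ) ^ N / 2 ^ M' * ((∑ z : ZMod (3 ^ N), (cnt M' (Set.Ici N) N z : ℝ))
      - 2 ^ (M' - M) * ∑ z : ZMod (3 ^ N), (cnt M (Set.Ici N) N z : ℝ))
      ≤ 3 ^ N / 2 ^ M' * (2 ^ M' * Real.exp (-((N : ℝ) / 6))) :=
    mul_le_mul_of_nonneg_left h4 (by positivity)
  rw [div_le_iff₀ (by positivity)]
  refine h5.trans (le_of_eq ?_)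
  field_simp

lemma seteq (N : ℕ) : {i : ℕ | i + 1 ∈ Set.Ici (N + 1)} = Set.Ici N := by
  ext i
  simp

/-- pointwise decomposition. -/
lemma point (hCnr : CnrStmt) (hWex : WexStmt) (N m : ℕ) (hm : 0 < m) :
    |Lop (wr (N + 1)) m - wr (N + 1) m| ≤
      (3 / 2) * (if 3 ∣ 2 * m - 1 then
        (fun y => |wr (N + 1) y - wr N y| + dx N (3 * N) (3 * (N + 1)) y) ((2 * m - 1) / 3) else 0)
      + dx (N + 1) (3 * (N + 1)) (3 * (N + 1) + 1) m := by
  have hC := hCnr N (3 * (N + 1)) m (Set.Ici (N + 1)) hm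
  rw [seteq] at hC
  set G : ℝ := 3 ^ (N + 1) / 2 ^ (3 * (N + 1) + 1) *
    (cnt (3 * (N + 1) + 1) (Set.Ici (N + 1)) (N + 1) ((m : ℕ) : ZMod (3 ^ (N + 1))) : ℝ) with hG
  have hd := dx_nonneg hWex (N := N + 1) (M := 3 * (N + 1)) (M' := 3 * (N + 1) + 1)
    le_rfl (by omega) m
  have e1 : G - wr (N + 1) m = dx (N + 1) (3 * (N + 1)) (3 * (N + 1) + 1) m := by
    rw [hG]
    unfold dx wr W
    have : 3 * (N + 1) + 1 - 3 * (N + 1) = 1 := by omega
    rw [this]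
    rw [show (2 : ℝ) ^ (3 * (N + 1) + 1) = 2 ^ (3 * (N + 1)) * 2 by rw [pow_succ]]
    field_simp
    try ring
  have e2 : |Lop (wr (N + 1)) m - G| ≤ (3 / 2) * (if 3 ∣ 2 * m - 1 then
        (fun y => |wr (N + 1) y - wr N y| + dx N (3 * N) (3 * (N + 1)) y) ((2 * m - 1) / 3)
        else 0) := by
    rw [hG, hC]
    unfold Lop
    by_cases h3 : 3 ∣ 2 * m - 1
    · simp only [h3, if_true]
      set y := (2 * m - 1) / 3 with hy
      have hd2 := dx_nonneg hWex (N := N) (M := 3 * N) (M' := 3 * (N + 1)) le_rfl (by omega) y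
      have e3 : (3 : ℝ) ^ N / 2 ^ (3 * (N + 1)) *
          (cnt (3 * (N + 1)) (Set.Ici N) N ((y : ℕ) : ZMod (3 ^ N)) : ℝ) - wr N y
          = dx N (3 * N) (3 * (N + 1)) y := by
        unfold dx wr W
        have h8 : 3 * (N + 1) - 3 * N = 3 := by omega
        rw [h8]
        rw [show (2 : ℝ) ^ (3 * (N + 1)) = 2 ^ (3 * N) * 8 by
          rw [show 3 * (N + 1) = 3 * N + 3 by ring, pow_add]; norm_num]
        field_simp
        try ring
      have e4 : (wr (N + 1) (2 * m) + 3 * wr (N + 1) y) / 2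
          - 3 ^ (N + 1) / 2 ^ (3 * (N + 1) + 1) *
            ((cnt (3 * (N + 1)) (Set.Ici (N + 1)) (N + 1)
              ((2 * m : ℕ) : ZMod (3 ^ (N + 1))) +
              cnt (3 * (N + 1)) (Set.Ici N) N ((y : ℕ) : ZMod (3 ^ N)) : ℕ) : ℝ)
          = (3 / 2) * ((wr (N + 1) y - wr N y) - dx N (3 * N) (3 * (N + 1)) y) := by
        rw [← e3]
        have e5 : wr (N + 1) (2 * m) = 3 ^ (N + 1) / 2 ^ (3 * (N + 1)) *
            (cnt (3 * (N + 1)) (Set.Ici (N + 1)) (N + 1)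
              ((2 * m : ℕ) : ZMod (3 ^ (N + 1))) : ℝ) := rfl
        rw [e5]
        rw [show (2 : ℝ) ^ (3 * (N + 1) + 1) = 2 ^ (3 * (N + 1)) * 2 by rw [pow_succ]]
        rw [show (3 : ℝ) ^ (N + 1) = 3 ^ N * 3 by rw [pow_succ]]
        rw [Nat.cast_add]
        field_simp
        try ring
      rw [e4, abs_mul, abs_of_pos (by norm_num : (0 : ℝ) < 3 / 2)]
      apply mul_le_mul_of_nonneg_left _ (by norm_num)
      have h9 := abs_sub (wr (N + 1) y - wr N y) (dx N (3 * N) (3 * (N + 1)) y)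
      rw [abs_of_nonneg hd2] at h9
      exact h9
    · simp only [h3, if_false]
      have e5 : wr (N + 1) (2 * m) = 3 ^ (N + 1) / 2 ^ (3 * (N + 1)) *
            (cnt (3 * (N + 1)) (Set.Ici (N + 1)) (N + 1)
              ((2 * m : ℕ) : ZMod (3 ^ (N + 1))) : ℝ) := rfl
      rw [e5]
      rw [show (2 : ℝ) ^ (3 * (N + 1) + 1) = 2 ^ (3 * (N + 1)) * 2 by rw [pow_succ]]
      rw [add_zero, add_zero]
      have e6 : (3 : ℝ) ^ (N + 1) / 2 ^ (3 * (N + 1)) *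
            (cnt (3 * (N + 1)) (Set.Ici (N + 1)) (N + 1)
              ((2 * m : ℕ) : ZMod (3 ^ (N + 1))) : ℝ) / 2
          - 3 ^ (N + 1) / (2 ^ (3 * (N + 1)) * 2) * (cnt (3 * (N + 1)) (Set.Ici (N + 1)) (N + 1)
              ((2 * m : ℕ) : ZMod (3 ^ (N + 1))) : ℝ) = 0 := by
        field_simp
        try ring
      rw [e6]
      simp
  have e7 : Lop (wr (N + 1)) m - wr (N + 1) m = (Lop (wr (N + 1)) m - G) + (G - wr (N + 1) m) := by
    ring
  rw [e7, e1]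
  refine (abs_add_le _ _).trans ?_
  rw [abs_of_nonneg hd]
  linarith

theorem one (hAva : AvaStmt) (hAvc : AvcStmt) (hLop : LopStmt) (hCnr : CnrStmt)
    (hWrb : WrbStmt) (hWex : Pool.Agent.WIR.WexStmt) : OneStmt := by
  intro A
  obtain ⟨C, hC1, hC⟩ := hWrb.2.2 A
  have hfac : (0 : ℝ) < (A.factorial : ℝ) := by exact_mod_cast A.factorial_pos
  have hKpos : (0 : ℝ) ≤ 3 * 6 ^ A * (A.factorial : ℝ) := by positivity
  refine ⟨2 + 2 ^ A * C + 2 * (3 * 6 ^ A * (A.factorial : ℝ)), ?_, ?_⟩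
  · have : (0 : ℝ) ≤ 2 ^ A * C := by positivity
    linarith
  intro r
  rcases Nat.eq_zero_or_pos r with hr | hr
  · subst hr
    have h1 : av (0 + 1) (fun m => |Lop (wr 0) m - wr 0 m|)
        ≤ av (0 + 1) (fun m => Lop (wr 0) m + wr 0 m) := by
      apply av_mono
      intro m _
      have p1 : 0 ≤ wr 0 m := hWrb.1 0 m
      have p2 : 0 ≤ Lop (wr 0) m := by
        unfold Lop
        have q1 := hWrb.1 0 (2 * m)
        have q2 := hWrb.1 0 ((2 * m - 1) / 3)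
        split_ifs <;> linarith
      rw [abs_le]
      constructor <;> linarith
    have h2 := (hLop.1 0 (wr 0) (hWrb.2.1 0).1).2
    have h3 := (hAva.1 0 (0 + 1) (wr 0) (hWrb.2.1 0).1 (by omega)).2
    have h4 := (hWrb.2.1 0).2
    rw [av_add, h2, h3] at h1
    have h5 : (0 : ℝ) ≤ 2 ^ A * C := by positivity
    have h6 : (((0 : ℕ) : ℝ) + 1) ^ A = 1 := by simp
    rw [h6, div_one]
    linarith
  · obtain ⟨N, rfl⟩ : ∃ N, r = N + 1 := ⟨r - 1, by omega⟩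
    -- the two functions
    have hd1 := dx_lv hAva hWex (N := N) (M := 3 * N) (M' := 3 * (N + 1)) le_rfl (by omega)
    have hd2 := dx_lv hAva hWex (N := N + 1) (M := 3 * (N + 1)) (M' := 3 * (N + 1) + 1)
      le_rfl (by omega)
    have hd1' := hAva.1 N (N + 1) _ hd1.1 (by omega)
    have hd2' := hAva.1 (N + 1) (N + 1 + 1) _ hd2.1 (by omega)
    have hw1 : Lv (N + 1) (wr (N + 1)) := (hWrb.2.1 (N + 1)).1
    have hw2 : Lv (N + 1) (wr N) := (hAva.1 N (N + 1) _ (hWrb.2.1 N).1 (by omega)).1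
    have hf1 : Lv (N + 1) (fun y => |wr (N + 1) y - wr N y|) := by
      intro m hm
      simp only []
      rw [hw1 m hm, hw2 m hm]
    have hh : Lv (N + 1) (fun y => |wr (N + 1) y - wr N y| + dx N (3 * N) (3 * (N + 1)) y) :=
      lv_add hf1 hd1'.1
    have hav1 : av (N + 1) (fun y => |wr (N + 1) y - wr N y| + dx N (3 * N) (3 * (N + 1)) y)
        ≤ C / ((N : ℝ) + 1) ^ A + Real.exp (-((N : ℝ) / 6)) := by
      rw [av_add]
      have := hC N
      rw [hd1'.2]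
      linarith [hd1.2]
    have hav2 := (hAvc.2 (N + 1) _ hh).2
    have h1 : av (N + 1 + 1) (fun m => |Lop (wr (N + 1)) m - wr (N + 1) m|)
        ≤ av (N + 1 + 1) (fun m => (3 / 2) * (if 3 ∣ 2 * m - 1 then
            (fun y => |wr (N + 1) y - wr N y| + dx N (3 * N) (3 * (N + 1)) y) ((2 * m - 1) / 3)
            else 0) + dx (N + 1) (3 * (N + 1)) (3 * (N + 1) + 1) m) :=
      av_mono (fun m hm => point hCnr hWex N m hm)
    rw [av_add, av_mul, hav2, hd2'.2] at h1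
    have he : Real.exp (-(((N + 1 : ℕ) : ℝ) / 6)) ≤ Real.exp (-((N : ℝ) / 6)) := by
      apply Real.exp_le_exp.2
      push_cast
      linarith
    have h2 : av (N + 1 + 1) (fun m => |Lop (wr (N + 1)) m - wr (N + 1) m|)
        ≤ C / ((N : ℝ) + 1) ^ A + 2 * Real.exp (-((N : ℝ) / 6)) := by
      have q1 : (0 : ℝ) ≤ C / ((N : ℝ) + 1) ^ A := by positivity
      have q2 := Real.exp_nonneg (-((N : ℝ) / 6))
      have q3 := hd2.2
      linarith
    have h3 := exp_bd A N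
    have h4 : C / ((N : ℝ) + 1) ^ A ≤ 2 ^ A * C / ((N : ℝ) + 2) ^ A := by
      rw [div_le_div_iff₀ (by positivity) (by positivity)]
      have : ((N : ℝ) + 2) ^ A ≤ (2 * ((N : ℝ) + 1)) ^ A := by
        apply pow_le_pow_left₀ (by positivity)
        have : (0 : ℝ) ≤ N := Nat.cast_nonneg N
        linarith
      rw [mul_pow] at this
      have := mul_le_mul_of_nonneg_left this (by positivity : (0 : ℝ) ≤ C)
      nlinarith
    have h5 : (((N + 1 : ℕ) : ℝ) + 1) = (N : ℝ) + 2 := by push_cast; ring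
    rw [h5]
    have h6 : (0 : ℝ) ≤ 2 / ((N : ℝ) + 2) ^ A := by positivity
    have h7 : (2 + 2 ^ A * C + 2 * (3 * 6 ^ A * (A.factorial : ℝ))) / ((N : ℝ) + 2) ^ A
        = 2 / ((N : ℝ) + 2) ^ A + 2 ^ A * C / ((N : ℝ) + 2) ^ A
          + 2 * (3 * 6 ^ A * (A.factorial : ℝ) / ((N : ℝ) + 2) ^ A) := by
      ring
    rw [h7]
    linarith

end Pool.Agent.WR2.H47
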